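import Mathlib

open Polynomial

namespace Pool.Agent.Results.MP_334179_al.AnosovNeverRecognizable

/-- The digit alphabet `Σ_q = {-(|q|-1), …, |q|-1}`, with its natural order. -/
abbrev Letter (q : ℤ) : Type := {a : ℤ // |a| < |q|}

/-- The index set `𝒫`. -/
def IndexSet : Set (ℤ × ℤ) :=
  {pq | 1 + |pq.1| < |pq.2| ∧ Int.gcd pq.1 pq.2 = 1 ∧
    (pq.1 ^ 2 + 4 * pq.2 ∈ ({-4, -3, 1, 4} : Set ℤ) ∨
      (0 < pq.1 ^ 2 + 4 * pq.2 ∧ ¬ IsSquare (pq.1 ^ 2 + 4 * pq.2)))}

/-- `t(x) = x^2 + p x - q`. -/
noncomputable def t (p q : ℤ) : ℤ[X] := X ^ 2 + C p * X - C q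

/-- The polynomial `∑ a_i x^i` of the string `a_0 a_1 ⋯ a_k` (Horner form). -/
noncomputable def poly {q : ℤ} : List (Letter q) → ℤ[X]
  | [] => 0
  | a :: w => C (a : ℤ) + X * poly w

/-- Two strings are equivalent if `t` divides the difference of their polynomials. -/
def Equivalent (p q : ℤ) (u v : List (Letter q)) : Prop := t p q ∣ poly u - poly v

/-- `Dom_{p,q}`: the strings that are length-lexicographically minimal in their class. -/
def Dom (p q : ℤ) : Set (List (Letter q)) :=
  {w | ∀ u : List (Letter q), List.Shortlex (· < ·) u w → ¬ Equivalent p q u w}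

/-- `ψ_{p,q}`: the coefficients `(c_0, c_1)` of the remainder modulo `t`. -/
noncomputable def psi (p q : ℤ) (w : List (Letter q)) : Fin 2 → ℤ :=
  fun i => (poly w %ₘ t p q).coeff i

/-- The convolution of two words; `none` is the padding symbol. -/
def conv {α : Type} (u v : List α) : List (Option α × Option α) :=
  List.ofFn (fun k : Fin (max u.length v.length) => (u[(k : ℕ)]?, v[(k : ℕ)]?))

/-- A binary relation on words is FA-recognizable if its convolutions form a regular language. -/
def FARecognizable {α : Type} (R : List α → List α → Prop) : Prop :=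
  Language.IsRegular ({c | ∃ u v, R u v ∧ c = conv u v} : Language (Option α × Option α))

/-- `A` is FA-recognizable with respect to `ψ_{p,q}`. -/
def MatrixRecognizable (p q : ℤ) (A : Matrix (Fin 2) (Fin 2) ℤ) : Prop :=
  FARecognizable (fun u v : List (Letter q) =>
    u ∈ Dom p q ∧ v ∈ Dom p q ∧ psi p q v = A.mulVec (psi p q u))

/-- The matrix of multiplication by `x` on `ℤ[x]/(t)` in the basis `1, x`. -/
def comp (p q : ℤ) : Matrix (Fin 2) (Fin 2) ℤ := !![0, q; 1, -p]

/-! ### Algebra -/

theorem dvd_seq (p q : ℤ) (hq : q ≠ 0) (hg : IsCoprime p q) (j : ℕ) :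
    ∀ f : ℕ → ℤ, (∀ k, q * f (k + 2) + (p ^ 2 + 2 * q) * f (k + 1) + q * f k = 0) →
      ∀ k, q ^ j ∣ f (k + j) := by
  induction j with
  | zero => intro f _ k; simp
  | succ j ih =>
    intro f hf k
    have h1 : ∀ k, q ∣ f (k + 1) := by
      intro k
      have h2 : q ∣ p ^ 2 * f (k + 1) := by
        refine ⟨-(f (k + 2) + 2 * f (k + 1) + f k), ?_⟩
        linear_combination hf k
      exact (IsCoprime.pow_left (m := 2) hg).symm.dvd_of_dvd_mul_left h2
    choose g hg' using h1
    have h3 : ∀ k, q * g (k + 2) + (p ^ 2 + 2 * q) * g (k + 1) + q * g k = 0 := by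
      intro k
      have h4 := hf (k + 1)
      rw [hg' k, show k + 1 + 1 = (k + 1) + 1 from rfl, hg' (k + 1),
        show k + 1 + 2 = (k + 2) + 1 from rfl, hg' (k + 2)] at h4
      have h5 : q * (q * g (k + 2) + (p ^ 2 + 2 * q) * g (k + 1) + q * g k) = 0 := by
        linear_combination h4
      exact (mul_eq_zero.mp h5).resolve_left hq
    have h6 := ih g h3 k
    rw [show k + (j + 1) = (k + j) + 1 from rfl, hg' (k + j), pow_succ, mul_comm]
    exact mul_dvd_mul (dvd_refl q) h6

theorem descent (p q : ℤ) (hpq : 1 + |p| < |q|) (hq3 : 3 ≤ |q|) (n : ℕ) :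
    ∀ h : ℕ → ℤ, (∀ k, q ^ 2 * h (k + 2) + (p ^ 2 + 2 * q) * h (k + 1) + h k = 0) →
      |h 0| ≤ n → |h 1| ≤ n → h 0 = 0 ∧ h 1 = 0 := by
  have key : ∀ a b c : ℤ, ∀ m : ℤ, q ^ 2 * c + (p ^ 2 + 2 * q) * b + a = 0 →
      |a| ≤ m → |b| ≤ m → 0 < m → |c| < m := by
    intro a b c m h ha hb hm
    have h1 : q ^ 2 * c = -((p ^ 2 + 2 * q) * b + a) := by linear_combination h
    have h2 : |q| ^ 2 * |c| ≤ (p ^ 2 + 2 * |q|) * m + m := by
      calc |q| ^ 2 * |c| = |q ^ 2 * c| := by rw [abs_mul, abs_pow]
        _ = |(p ^ 2 + 2 * q) * b + a| := by rw [h1, abs_neg]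
        _ ≤ |(p ^ 2 + 2 * q) * b| + |a| := abs_add_le _ _
        _ = |p ^ 2 + 2 * q| * |b| + |a| := by rw [abs_mul]
        _ ≤ (p ^ 2 + 2 * |q|) * m + m := by
          have h3 : |p ^ 2 + 2 * q| ≤ p ^ 2 + 2 * |q| := by
            refine (abs_add_le _ _).trans ?_
            rw [abs_mul, abs_pow, sq_abs]; simp
          have h4 : |p ^ 2 + 2 * q| * |b| ≤ (p ^ 2 + 2 * |q|) * m := by
            apply mul_le_mul h3 hb (abs_nonneg _)
            positivity
          linarith
    have h5 : p ^ 2 ≤ (|q| - 2) ^ 2 := by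
      rw [← sq_abs p]
      apply pow_le_pow_left₀ (abs_nonneg _)
      linarith [Int.add_one_le_iff.mpr hpq]
    by_contra hc
    push Not at hc
    have h6 : |q| ^ 2 * m ≤ |q| ^ 2 * |c| := mul_le_mul_of_nonneg_left hc (by positivity)
    nlinarith
  induction n with
  | zero =>
    intro h _ h0 h1
    simp only [Nat.cast_zero, abs_nonpos_iff] at h0 h1
    exact ⟨h0, h1⟩
  | succ n ih =>
    intro h hr h0 h1
    have h2 := key (h 0) (h 1) (h 2) (n + 1) (hr 0) (by exact_mod_cast h0) (by exact_mod_cast h1)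
      (by positivity)
    have h3 := key (h 1) (h 2) (h 3) (n + 1) (hr 1) (by exact_mod_cast h1) h2.le
      (by positivity)
    have h4 := ih (fun k => h (k + 2)) (fun k => hr (k + 2)) (Int.lt_add_one_iff.mp h2)
      (Int.lt_add_one_iff.mp h3)
    have h5 : h 2 = 0 := h4.1
    have h6 : h 3 = 0 := h4.2
    have h7 : h 1 = 0 := by
      have := hr 1
      rw [show 1 + 2 = 3 from rfl, show 1 + 1 = 2 from rfl, h5, h6] at this
      linear_combination this
    have h8 : h 0 = 0 := by
      have := hr 0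
      rw [show 0 + 2 = 2 from rfl, show 0 + 1 = 1 from rfl, h5, h7] at this
      linear_combination this
    exact ⟨h8, h7⟩

theorem seq_zero (p q : ℤ) (hpq : 1 + |p| < |q|) (hg : IsCoprime p q) (f : ℕ → ℤ)
    (hf : ∀ k, q * f (k + 2) + (p ^ 2 + 2 * q) * f (k + 1) + q * f k = 0) : f 0 = 0 := by
  have hq0 : q ≠ 0 := by
    rintro rfl
    have := abs_nonneg p
    simp at hpq
    linarith
  have hq3 : 3 ≤ |q| := by
    by_contra hlt
    have hp0 : |p| < 1 := by have := abs_nonneg p; omega
    have hp : p = 0 := by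
      have := abs_nonneg p
      exact abs_eq_zero.mp (by omega)
    subst hp
    rw [isCoprime_zero_left] at hg
    have := Int.isUnit_iff_abs_eq.mp hg
    simp [this] at hpq
  have h1 : ∀ k, q ^ k ∣ f k := by
    intro k
    simpa using dvd_seq p q hq0 hg k f hf 0
  choose h hh using h1
  have h2 : ∀ k, q ^ 2 * h (k + 2) + (p ^ 2 + 2 * q) * h (k + 1) + h k = 0 := by
    intro k
    have h3 := hf k
    rw [hh k, hh (k + 1), hh (k + 2)] at h3
    have h4 : q ^ (k + 1) * (q ^ 2 * h (k + 2) + (p ^ 2 + 2 * q) * h (k + 1) + h k) = 0 := by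
      linear_combination h3
    exact (mul_eq_zero.mp h4).resolve_left (pow_ne_zero _ hq0)
  obtain ⟨n, hn⟩ : ∃ n : ℕ, |h 0| ≤ n ∧ |h 1| ≤ n := by
    refine ⟨max (h 0).natAbs (h 1).natAbs, ?_, ?_⟩
    · rw [Int.abs_eq_natAbs]; exact_mod_cast le_max_left _ _
    · rw [Int.abs_eq_natAbs]; exact_mod_cast le_max_right _ _
  have h5 := (descent p q hpq hq3 n h h2 hn.1 hn.2).1
  rw [hh 0, h5, mul_zero]

theorem comp_sq (p q : ℤ) : comp p q * comp p q = q • (1 : Matrix (Fin 2) (Fin 2) ℤ) - p • comp p q := by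
  rw [Matrix.one_fin_two]
  ext i j
  fin_cases i <;> fin_cases j <;>
    simp [comp, Matrix.mul_apply, Fin.sum_univ_two, -zsmul_eq_mul, -Int.zsmul_eq_mul] <;> ring

theorem comp_mul_cancel (p q : ℤ) (hq : q ≠ 0) (M N : Matrix (Fin 2) (Fin 2) ℤ)
    (h : comp p q * M = comp p q * N) : M = N := by
  have h1 : (comp p q + p • (1 : Matrix (Fin 2) (Fin 2) ℤ)) * comp p q
      = q • (1 : Matrix (Fin 2) (Fin 2) ℤ) := by
    rw [add_mul, comp_sq]; simp
  have h2 : q • M = q • N := by
    have := congrArg (fun Z => (comp p q + p • (1 : Matrix (Fin 2) (Fin 2) ℤ)) * Z) h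
    simp only [← mul_assoc, h1] at this
    simpa using this
  exact smul_right_injective _ hq h2

theorem comp_pow_cancel (p q : ℤ) (hq : q ≠ 0) (k : ℕ) (M N : Matrix (Fin 2) (Fin 2) ℤ)
    (h : comp p q ^ k * M = comp p q ^ k * N) : M = N := by
  induction k with
  | zero => simpa using h
  | succ k ih =>
    apply ih
    apply comp_mul_cancel p q hq
    rw [← mul_assoc, ← mul_assoc, ← pow_succ']
    exact h

/-- If `D A X^k` is divisible by `X^k` from the left for all `k`, then `A` commutes with `X`. -/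
theorem commutes_of_dvd (p q : ℤ) (hpq : 1 + |p| < |q|) (hg : IsCoprime p q)
    (A : Matrix (Fin 2) (Fin 2) ℤ) (D : ℤ) (hD : D ≠ 0)
    (h : ∀ k : ℕ, ∃ Ck : Matrix (Fin 2) (Fin 2) ℤ, D • (A * comp p q ^ k) = comp p q ^ k * Ck) :
    A * comp p q = comp p q * A := by
  have hq0 : q ≠ 0 := by
    rintro rfl
    have := abs_nonneg p
    simp at hpq
    linarith
  choose Ck hC using h
  set X := comp p q with hX
  let F : ℕ → Matrix (Fin 2) (Fin 2) ℤ := fun k => Ck k * X - X * Ck k
  have hF0 : F 0 = D • (A * X - X * A) := by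
    have h0 := hC 0
    simp only [pow_zero, mul_one, one_mul] at h0
    simp only [F, ← h0, Matrix.smul_mul, Matrix.mul_smul, smul_sub]
  have hrec1 : ∀ k, X * F (k + 1) = F k * X := by
    intro k
    apply comp_pow_cancel p q hq0 k
    have e1 : X ^ k * (X * F (k + 1)) = D • (A * X ^ (k + 2)) - X * (D • (A * X ^ (k + 1))) := by
      have h1 := hC (k + 1)
      calc X ^ k * (X * F (k + 1)) = (X ^ (k + 1) * Ck (k + 1)) * X - X * (X ^ (k + 1) * Ck (k + 1)) := by
            simp only [F, mul_sub, ← mul_assoc, ← pow_succ, ← pow_succ']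
        _ = _ := by
            rw [← h1]
            simp only [Matrix.smul_mul, mul_assoc, ← pow_succ]
    have e2 : X ^ k * (F k * X) = D • (A * X ^ (k + 2)) - X * (D • (A * X ^ (k + 1))) := by
      have h1 := hC k
      calc X ^ k * (F k * X) = ((X ^ k * Ck k) * X - X * (X ^ k * Ck k)) * X := by
            simp only [F, mul_sub, sub_mul, ← mul_assoc, ← pow_succ, ← pow_succ']
        _ = _ := by
            rw [← h1]
            simp only [Matrix.smul_mul, Matrix.mul_smul, mul_assoc, ← pow_succ, sub_mul]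
    show X ^ k * (X * F (k + 1)) = X ^ k * (F k * X)
    rw [e1, e2]
  have hanti : ∀ k, X * F k + F k * X = -(p • F k) := by
    intro k
    have hsq : X * X = q • (1 : Matrix (Fin 2) (Fin 2) ℤ) - p • X := comp_sq p q
    have e : X * F k + F k * X = Ck k * (X * X) - (X * X) * Ck k := by
      simp only [F]; noncomm_ring
    rw [e, hsq]
    simp only [F, mul_sub, sub_mul, smul_sub, Matrix.smul_mul, Matrix.mul_smul, mul_one, one_mul]
    abel
  -- recurrence
  have hrec : ∀ k, q • F (k + 2) + (p ^ 2 + 2 * q) • F (k + 1) + q • F k = 0 := by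
    have hbar : ∀ k, q • F (k + 1) = - ((q + p ^ 2) • F k + p • (X * F k)) := by
      intro k
      have h1 : (X + p • (1 : Matrix (Fin 2) (Fin 2) ℤ)) * X = q • (1 : Matrix (Fin 2) (Fin 2) ℤ) := by
        rw [add_mul, Matrix.smul_mul, one_mul, show X * X = q • (1 : Matrix (Fin 2) (Fin 2) ℤ) - p • X from comp_sq p q]; abel
      have h2 : F k * X = -(X * F k + p • F k) := by
        have := hanti k
        rw [neg_add, ← this]; abel
      calc q • F (k + 1) = ((X + p • (1 : Matrix (Fin 2) (Fin 2) ℤ)) * X) * F (k + 1) := by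
            rw [h1]; simp
        _ = (X + p • (1 : Matrix (Fin 2) (Fin 2) ℤ)) * (F k * X) := by
            rw [mul_assoc, hrec1]
        _ = (X + p • (1 : Matrix (Fin 2) (Fin 2) ℤ)) * (-(X * F k + p • F k)) := by rw [h2]
        _ = -((X * X) * F k + (2 * p) • (X * F k) + (p ^ 2) • F k) := by
            simp only [add_mul, mul_add, mul_neg, Matrix.smul_mul, Matrix.mul_smul, one_mul,
              mul_assoc, neg_add, smul_add, smul_smul, two_mul, add_smul, sq]
            abel
        _ = _ := by
            rw [show X * X = q • (1 : Matrix (Fin 2) (Fin 2) ℤ) - p • X from comp_sq p q]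
            simp only [sub_mul, Matrix.smul_mul, one_mul, two_mul, add_smul]
            abel
    intro k
    have h1 := hbar k
    have h2 := hbar (k + 1)
    have h3 : X * F (k + 1) = -(X * F k + p • F k) := by
      rw [hrec1]
      have := hanti k
      rw [neg_add, ← this]; abel
    have h4 : p • (X * F (k + 1)) = q • F (k + 1) + q • F k := by
      rw [h3, h1]
      simp only [smul_neg, smul_add, smul_smul, add_smul, sq]
      abel
    rw [show k + 2 = k + 1 + 1 from rfl, h2, h4]
    simp only [add_smul, two_mul]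
    abel
  have hzero : F 0 = 0 := by
    ext i j
    have := seq_zero p q hpq hg (fun k => F k i j) (by
      intro k
      have h1 := congrFun (congrFun (hrec k) i) j
      simp only [Matrix.add_apply, Matrix.smul_apply, Matrix.zero_apply, smul_eq_mul] at h1
      exact h1)
    simpa using this
  rw [hF0] at hzero
  have h2 := (smul_eq_zero.mp hzero).resolve_left hD
  exact sub_eq_zero.mp h2

/-! ### Words and polynomials -/

theorem t_monic (p q : ℤ) : (t p q).Monic := by
  unfold t; monicity!

theorem t_natDegree (p q : ℤ) : (t p q).natDegree = 2 := by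
  unfold t; compute_degree!

theorem t_degree (p q : ℤ) : (t p q).degree = 2 := by
  rw [Polynomial.degree_eq_natDegree (t_monic p q).ne_zero, t_natDegree]; rfl

theorem t_coeff_zero (p q : ℤ) : (t p q).coeff 0 = -q := by
  simp [t]

theorem mod_form (p q : ℤ) (f : ℤ[X]) :
    f %ₘ t p q = C ((f %ₘ t p q).coeff 1) * X + C ((f %ₘ t p q).coeff 0) := by
  apply Polynomial.eq_X_add_C_of_degree_le_one
  have h := Polynomial.degree_modByMonic_lt f (t_monic p q)
  rw [t_degree] at h
  exact Order.le_of_lt_succ h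

theorem psi_nil (p q : ℤ) : psi p q ([] : List (Letter q)) = 0 := by
  ext i; simp [psi, poly]

theorem mod_of_eq (p q : ℤ) (f g : ℤ[X]) (c0 c1 : ℤ) (h : C c0 + C c1 * X + t p q * g = f) :
    f %ₘ t p q = C c0 + C c1 * X := by
  refine (Polynomial.div_modByMonic_unique g _ (t_monic p q) ⟨h, ?_⟩).2
  rw [t_degree]
  refine lt_of_le_of_lt (b := 1) ?_ (by norm_num)
  compute_degree

theorem psi_cons (p q : ℤ) (a : Letter q) (w : List (Letter q)) :
    psi p q (a :: w) = ![(a : ℤ), 0] + (comp p q).mulVec (psi p q w) := by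
  have h := mod_form p q (poly w)
  set c0 := (poly w %ₘ t p q).coeff 0 with hc0
  set c1 := (poly w %ₘ t p q).coeff 1 with hc1
  have h1 : poly w %ₘ t p q + t p q * (poly w /ₘ t p q) = poly w :=
    Polynomial.modByMonic_add_div _ (t p q)
  have h2 := mod_of_eq p q (poly (a :: w)) (C c1 + X * (poly w /ₘ t p q))
    ((a : ℤ) + q * c1) (c0 - p * c1) (by
      conv_rhs => rw [poly, ← h1, h]
      simp only [t, C_add, C_sub, C_mul]
      ring)
  have k0 : ∀ a b : ℤ, (C a + C b * X : ℤ[X]).coeff 0 = a := by intro a b; simp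
  have k1 : ∀ a b : ℤ, (C a + C b * X : ℤ[X]).coeff 1 = b := by
    intro a b; rw [Polynomial.coeff_add, Polynomial.coeff_C_mul, Polynomial.coeff_X_one,
      Polynomial.coeff_C_ne_zero one_ne_zero]; ring
  ext i
  fin_cases i
  · show (poly (a :: w) %ₘ t p q).coeff 0 = _
    rw [h2, k0]
    simp [psi, comp, Matrix.mulVec, dotProduct, Fin.sum_univ_two, ← hc1]
  · show (poly (a :: w) %ₘ t p q).coeff 1 = _
    rw [h2, k1]
    simp [psi, comp, Matrix.mulVec, dotProduct, Fin.sum_univ_two, ← hc1, ← hc0]
    ring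

theorem psi_eq_iff (p q : ℤ) (u v : List (Letter q)) :
    psi p q u = psi p q v ↔ Equivalent p q u v := by
  unfold Equivalent
  rw [← Polynomial.modByMonic_eq_zero_iff_dvd (t_monic p q), Polynomial.sub_modByMonic, sub_eq_zero]
  constructor
  · intro h
    rw [mod_form p q (poly u), mod_form p q (poly v)]
    have h0 := congrFun h 0
    have h1 := congrFun h 1
    simp only [psi, Fin.val_zero, Fin.val_one] at h0 h1
    rw [h0, h1]
  · intro h
    ext i
    simp [psi, h]

theorem psi_append (p q : ℤ) (u v : List (Letter q)) :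
    psi p q (u ++ v) = psi p q u + (comp p q ^ u.length).mulVec (psi p q v) := by
  induction u with
  | nil => simp [psi_nil]
  | cons a u ih =>
    rw [List.cons_append, psi_cons, ih, psi_cons, Matrix.mulVec_add, List.length_cons, pow_succ',
      ← Matrix.mulVec_mulVec, add_assoc]

theorem psi_injOn (p q : ℤ) {u v : List (Letter q)} (hu : u ∈ Dom p q) (hv : v ∈ Dom p q)
    (h : psi p q u = psi p q v) : u = v := by
  have h1 : ¬ List.Shortlex (· < ·) u v := fun hs => hv u hs ((psi_eq_iff p q u v).mp h)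
  have h2 : ¬ List.Shortlex (· < ·) v u := fun hs => hu v hs ((psi_eq_iff p q v u).mp h.symm)
  exact Std.Trichotomous.trichotomous (r := List.Shortlex (· < ·)) u v h1 h2

instance (q : ℤ) : Finite (Letter q) := by
  have : ({a : ℤ | |a| < |q|}).Finite := by
    apply (Set.finite_Ioo (-|q|) |q|).subset
    intro a ha
    exact abs_lt.mp ha
  exact this.to_subtype

theorem exists_word (p q : ℤ) (hpq : 1 + |p| < |q|) :
    ∀ n m : ℕ, ∀ z0 z1 : ℤ, z0.natAbs + z1.natAbs = n → z1.natAbs = m →
      ∃ w : List (Letter q), psi p q w = ![z0, z1] := by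
  intro n
  induction n using Nat.strong_induction_on with
  | _ n ihn =>
    intro m
    induction m using Nat.strong_induction_on with
    | _ m ihm =>
      intro z0 z1 hn hm
      by_cases hz : z0 = 0 ∧ z1 = 0
      · exact ⟨[], by rw [psi_nil, hz.1, hz.2]; ext i; fin_cases i <;> rfl⟩
      have hq0 : q ≠ 0 := by
        rintro rfl
        have := abs_nonneg p
        simp at hpq
        linarith
      -- digits
      set r := z0.tmod q with hr
      set d := z0.tdiv q with hd
      have hrd : r + d * q = z0 := by rw [hr, hd, mul_comm]; exact Int.tmod_add_mul_tdiv z0 q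
      have hrlt : |r| < |q| := by
        rw [hr, Int.abs_eq_natAbs, Int.abs_eq_natAbs, Int.natAbs_tmod]
        exact_mod_cast Nat.mod_lt _ (Int.natAbs_pos.mpr hq0)
      have habs : r.natAbs + d.natAbs * q.natAbs = z0.natAbs := by
        rw [hr, hd, Int.natAbs_tmod, Int.natAbs_tdiv]
        exact Nat.mod_add_div' _ _
      have hstep : ∀ w : List (Letter q), psi p q w = ![z1 + d * p, d] →
          psi p q (⟨r, hrlt⟩ :: w) = ![z0, z1] := by
        intro w hw
        rw [psi_cons, hw]
        ext i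
        fin_cases i
        · simp [comp, Matrix.mulVec, dotProduct, Fin.sum_univ_two]; linarith
        · simp [comp, Matrix.mulVec, dotProduct, Fin.sum_univ_two]
      have hpq' : 1 + p.natAbs < q.natAbs := by
        have : ((1 + p.natAbs : ℕ) : ℤ) < (q.natAbs : ℕ) := by
          push_cast; exact hpq
        exact_mod_cast this
      have hle : (z1 + d * p).natAbs ≤ z1.natAbs + d.natAbs * p.natAbs := by
        rw [← Int.natAbs_mul]; exact Int.natAbs_add_le _ _
      by_cases hd0 : d = 0
      · rw [hd0] at hstep habs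
        simp only [zero_mul, add_zero, Int.natAbs_zero] at hstep habs
        by_cases hz0 : z0 = 0
        · obtain ⟨w, hw⟩ := ihm 0 (by
            rcases Nat.eq_zero_or_pos m with h | h
            · exfalso; apply hz; exact ⟨hz0, Int.natAbs_eq_zero.mp (by omega)⟩
            · exact h) z1 0 (by simp [hz0] at hn; simp [hn]) rfl
          exact ⟨_, hstep w hw⟩
        · have : 0 < z0.natAbs := Int.natAbs_pos.mpr hz0
          obtain ⟨w, hw⟩ := ihn z1.natAbs (by omega) 0 z1 0 (by simp) rfl
          exact ⟨_, hstep w hw⟩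
      · have hdpos : 0 < d.natAbs := Int.natAbs_pos.mpr hd0
        have hlt : (z1 + d * p).natAbs + d.natAbs < n := by
          have : d.natAbs * (1 + p.natAbs) < d.natAbs * q.natAbs :=
            Nat.mul_lt_mul_of_pos_left hpq' hdpos
          have e : d.natAbs * (1 + p.natAbs) = d.natAbs + d.natAbs * p.natAbs := by ring
          omega
        obtain ⟨w, hw⟩ := ihn _ hlt _ (z1 + d * p) d rfl rfl
        exact ⟨_, hstep w hw⟩

theorem exists_dom (p q : ℤ) (hpq : 1 + |p| < |q|) (z : Fin 2 → ℤ) :
    ∃ w ∈ Dom p q, psi p q w = z := by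
  obtain ⟨w0, hw0⟩ := exists_word p q hpq _ _ (z 0) (z 1) rfl rfl
  have hz : ![z 0, z 1] = z := by ext i; fin_cases i <;> rfl
  rw [hz] at hw0
  have hwf : WellFounded (List.Shortlex (α := Letter q) (· < ·)) :=
    List.Shortlex.wf (wellFounded_lt)
  obtain ⟨w, hw, hmin⟩ := hwf.has_min {w : List (Letter q) | psi p q w = z} ⟨w0, hw0⟩
  refine ⟨w, ?_, hw⟩
  intro u hu he
  have h1 : psi p q u = z := by
    rw [← hw]; exact (psi_eq_iff p q u w).mpr he
  exact hmin u h1 hu

/-- Prepending a zero digit keeps non-empty words in the domain. -/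
theorem cons_zero_mem (p q : ℤ) (hq : q ≠ 0) (w : List (Letter q)) (hw : w ∈ Dom p q)
    (hne : w ≠ []) : (⟨0, by simpa using hq⟩ : Letter q) :: w ∈ Dom p q := by
  have hdvd : ∀ g : ℤ[X], t p q ∣ X * g → t p q ∣ g := by
    rintro g ⟨h, hh⟩
    have h0 : (t p q * h).coeff 0 = 0 := by rw [← hh]; simp
    rw [Polynomial.mul_coeff_zero, t_coeff_zero] at h0
    have h1 : h.coeff 0 = 0 := by
      rcases mul_eq_zero.mp h0 with h2 | h2
      · exact absurd (neg_eq_zero.mp h2) hq
      · exact h2
    obtain ⟨h', rfl⟩ := Polynomial.X_dvd_iff.mpr h1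
    refine ⟨h', ?_⟩
    have : X * g = X * (t p q * h') := by rw [hh]; ring
    exact mul_left_cancel₀ Polynomial.X_ne_zero this
  intro u hu he
  unfold Equivalent at he
  rcases u with _ | ⟨a, u⟩
  · apply hw [] (List.Shortlex.of_length_lt (by simpa using List.length_pos_iff.mpr hne))
    unfold Equivalent
    have : poly ([] : List (Letter q)) - poly ((⟨0, by simpa using hq⟩ : Letter q) :: w)
        = X * (poly ([] : List (Letter q)) - poly w) := by
      simp [poly]
    rw [this] at he
    exact hdvd _ he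
  · have e : poly (a :: u) - poly ((⟨0, by simpa using hq⟩ : Letter q) :: w)
        = C (a : ℤ) + X * (poly u - poly w) := by
      simp [poly]; ring
    rw [e] at he
    obtain ⟨h, hh⟩ := he
    have h0 : (a : ℤ) = -q * h.coeff 0 := by
      have := congrArg (fun f => Polynomial.coeff f 0) hh
      simpa [Polynomial.mul_coeff_zero, t_coeff_zero] using this
    have ha0 : (a : ℤ) = 0 := by
      have h1 : q ∣ (a : ℤ) := ⟨-h.coeff 0, by rw [h0]; ring⟩
      exact Int.eq_zero_of_abs_lt_dvd ((abs_dvd q a).mpr h1) a.2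
    have ha : a = ⟨0, by simpa using hq⟩ := Subtype.ext ha0
    apply hw u _ _
    · rw [ha] at hu
      exact List.shortlex_cons_iff.mp hu
    · unfold Equivalent
      apply hdvd
      refine ⟨h, ?_⟩
      rw [← hh, ha0]; simp

theorem zeros_mem (p q : ℤ) (hq : q ≠ 0) (k : ℕ) (w : List (Letter q)) (hw : w ∈ Dom p q)
    (hne : w ≠ []) :
    List.replicate k (⟨0, by simpa using hq⟩ : Letter q) ++ w ∈ Dom p q := by
  induction k with
  | zero => simpa using hw
  | succ k ih =>
    rw [List.replicate_succ, List.cons_append]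
    apply cons_zero_mem p q hq _ ih
    simp [hne]

@[simp] theorem conv_length {α : Type} (u v : List α) :
    (conv u v).length = max u.length v.length := by simp [conv]

theorem conv_getElem? {α : Type} (u v : List α) (i : ℕ) :
    (conv u v)[i]? = if i < max u.length v.length then some (u[i]?, v[i]?) else none := by
  unfold conv
  rw [List.getElem?_ofFn]
  split_ifs <;> rfl

/-- letters of `u`, `v` recovered from the convolution -/
theorem conv_fst {α : Type} (u v : List α) (i : ℕ) :
    ((conv u v)[i]?).bind Prod.fst = u[i]? := by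
  rw [conv_getElem?]
  split_ifs with h
  · rfl
  · have : u.length ≤ i := by omega
    simp [List.getElem?_eq_none this]

theorem conv_snd {α : Type} (u v : List α) (i : ℕ) :
    ((conv u v)[i]?).bind Prod.snd = v[i]? := by
  rw [conv_getElem?]
  split_ifs with h
  · rfl
  · have : v.length ≤ i := by omega
    simp [List.getElem?_eq_none this]

theorem psi_zeros (p q : ℤ) (hq : q ≠ 0) (k : ℕ) (w : List (Letter q)) :
    psi p q (List.replicate k (⟨0, by simpa using hq⟩ : Letter q) ++ w)
      = (comp p q ^ k).mulVec (psi p q w) := by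
  induction k with
  | zero => simp
  | succ k ih =>
    rw [List.replicate_succ, List.cons_append, psi_cons, ih, pow_succ', ← Matrix.mulVec_mulVec]
    ext i; fin_cases i <;> simp

/-- The key pigeonhole step. -/
theorem take_eq_of_state (p q : ℤ) (hq : q ≠ 0) (A : Matrix (Fin 2) (Fin 2) ℤ)
    {σ : Type} (M : DFA (Option (Letter q) × Option (Letter q)) σ)
    (hM : M.accepts = ({c | ∃ u v, (u ∈ Dom p q ∧ v ∈ Dom p q ∧
      psi p q v = A.mulVec (psi p q u)) ∧ c = conv u v} :
        Language (Option (Letter q) × Option (Letter q))))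
    (k : ℕ) (w w' v v' : List (Letter q)) (hw : w ∈ Dom p q) (hw' : w' ∈ Dom p q)
    (hne : w ≠ []) (hne' : w' ≠ []) (hv : v ∈ Dom p q) (hv' : v' ∈ Dom p q)
    (e : psi p q v = A.mulVec ((comp p q ^ k).mulVec (psi p q w)))
    (e' : psi p q v' = A.mulVec ((comp p q ^ k).mulVec (psi p q w')))
    (hs : M.eval ((conv (List.replicate k (⟨0, by simpa using hq⟩ : Letter q) ++ w) v).take k)
      = M.eval ((conv (List.replicate k (⟨0, by simpa using hq⟩ : Letter q) ++ w') v').take k)) :
    v.take k = v'.take k := by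
  set u := List.replicate k (⟨0, by simpa using hq⟩ : Letter q) ++ w with hu
  set u' := List.replicate k (⟨0, by simpa using hq⟩ : Letter q) ++ w' with hu'
  have hklen : k ≤ u.length := by simp [hu]
  have hklen' : k ≤ u'.length := by simp [hu']
  have hacc' : conv u' v' ∈ M.accepts := by
    rw [hM]
    refine ⟨u', v', ⟨zeros_mem p q hq k w' hw' hne', hv', ?_⟩, rfl⟩
    rw [e', hu', psi_zeros p q hq]
  set cc := (conv u v).take k ++ (conv u' v').drop k with hc
  have hcacc : cc ∈ M.accepts := by
    rw [DFA.mem_accepts, hc, DFA.eval, DFA.evalFrom_of_append]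
    change M.evalFrom (M.eval _) _ ∈ _
    rw [hs]
    have h1 := hacc'
    rw [DFA.mem_accepts, ← List.take_append_drop k (conv u' v'), DFA.eval,
      DFA.evalFrom_of_append] at h1
    exact h1
  rw [hM] at hcacc
  obtain ⟨u'', v'', ⟨hu'', hv'', hψ⟩, hconv⟩ := hcacc
  have htl : ((conv u v).take k).length = k := by
    rw [List.length_take, conv_length]; omega
  have hlow : ∀ i, i < k → cc[i]? = (conv u v)[i]? := by
    intro i hi
    rw [hc, List.getElem?_append_left (by omega), List.getElem?_take_of_lt hi]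
  have hhigh : ∀ i, k ≤ i → cc[i]? = (conv u' v')[i]? := by
    intro i hi
    rw [hc, List.getElem?_append_right (by omega), htl, List.getElem?_drop]
    congr 1; omega
  have hu_eq : u'' = u' := by
    apply List.ext_getElem?
    intro i
    rw [← conv_fst u'' v'' i, ← hconv]
    by_cases hi : i < k
    · rw [hlow i hi, conv_fst, hu, hu', List.getElem?_append_left (by simpa using hi),
        List.getElem?_append_left (by simpa using hi)]
    · rw [hhigh i (by omega), conv_fst]
  have hv_eq : v'' = v' := by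
    apply psi_injOn p q hv'' hv'
    rw [hψ, hu_eq, e', hu', psi_zeros p q hq]
  apply List.ext_getElem?
  intro i
  by_cases hi : i < k
  · rw [List.getElem?_take_of_lt hi, List.getElem?_take_of_lt hi, ← hv_eq,
      ← conv_snd u'' v'' i, ← hconv, hlow i hi, conv_snd]
  · rw [List.getElem?_eq_none (by rw [List.length_take]; omega),
      List.getElem?_eq_none (by rw [List.length_take]; omega)]

theorem psi_take_drop (p q : ℤ) (k : ℕ) (v : List (Letter q)) :
    psi p q v = psi p q (v.take k) + (comp p q ^ k).mulVec (psi p q (v.drop k)) := by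
  by_cases hk : k ≤ v.length
  · conv_lhs => rw [← List.take_append_drop k v]
    rw [psi_append, List.length_take, min_eq_left hk]
  · rw [List.drop_eq_nil_of_le (by omega), psi_nil, List.take_of_length_le (by omega)]
    simp

/-- Every FA-recognizable matrix commutes with the companion matrix. -/
theorem commutes (p q : ℤ) (hpq : 1 + |p| < |q|) (hg : IsCoprime p q)
    (A : Matrix (Fin 2) (Fin 2) ℤ) (hA : MatrixRecognizable p q A) :
    A * comp p q = comp p q * A := by
  classical
  have hq0 : q ≠ 0 := by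
    rintro rfl
    have := abs_nonneg p
    simp at hpq
    linarith
  obtain ⟨σ, _, M, hM⟩ := hA
  set N := Fintype.card σ with hN
  -- every vector: some multiple `d ≤ N`
  have hvec : ∀ (k : ℕ) (z : Fin 2 → ℤ), z ≠ 0 → ∃ d : ℕ, 0 < d ∧ d ≤ N ∧ ∃ y : Fin 2 → ℤ,
      (d : ℤ) • A.mulVec ((comp p q ^ k).mulVec z) = (comp p q ^ k).mulVec y := by
    intro k z hz
    have hex : ∀ j : Fin (N + 1), ∃ w v : List (Letter q), w ∈ Dom p q ∧ v ∈ Dom p q ∧
        psi p q w = ((j : ℕ) + 1 : ℤ) • z ∧
        psi p q v = A.mulVec ((comp p q ^ k).mulVec (psi p q w)) := by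
      intro j
      obtain ⟨w, hw, hw2⟩ := exists_dom p q hpq (((j : ℕ) + 1 : ℤ) • z)
      obtain ⟨v, hv, hv2⟩ := exists_dom p q hpq (A.mulVec ((comp p q ^ k).mulVec (psi p q w)))
      exact ⟨w, v, hw, hv, hw2, hv2⟩
    choose w v hw hv hwz hvz using hex
    have hne : ∀ j, w j ≠ [] := by
      intro j h
      have h1 := hwz j
      rw [h, psi_nil] at h1
      rcases smul_eq_zero.mp h1.symm with h2 | h2
      · have : (0 : ℤ) ≤ ((j : ℕ) : ℤ) := Int.natCast_nonneg _
        omega
      · exact hz h2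
    obtain ⟨j, j', hjj, hst⟩ := Fintype.exists_ne_map_eq_of_card_lt
      (fun j : Fin (N + 1) => M.eval ((conv (List.replicate k
        (⟨0, by simpa using hq0⟩ : Letter q) ++ w j) (v j)).take k)) (by simp [hN])
    wlog hlt : j < j' generalizing j j'
    · exact this j' j hjj.symm hst.symm (lt_of_le_of_ne (not_lt.mp hlt) hjj.symm)
    have htake := take_eq_of_state p q hq0 A M hM k (w j) (w j') (v j) (v j') (hw j) (hw j')
      (hne j) (hne j') (hv j) (hv j') (hvz j) (hvz j') hst
    have hlt' : (j : ℕ) < j' := hlt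
    refine ⟨(j' : ℕ) - j, by omega, by omega,
      psi p q ((v j').drop k) - psi p q ((v j).drop k), ?_⟩
    have h1 := psi_take_drop p q k (v j)
    have h2 := psi_take_drop p q k (v j')
    rw [htake] at h1
    have h3 : psi p q (v j') - psi p q (v j)
        = (comp p q ^ k).mulVec (psi p q ((v j').drop k) - psi p q ((v j).drop k)) := by
      rw [h1, h2, Matrix.mulVec_sub]; abel
    rw [← h3, hvz j, hvz j', hwz j, hwz j']
    simp only [Matrix.mulVec_smul]
    rw [← sub_smul]
    congr 1
    rw [Nat.cast_sub hlt'.le]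
    ring
  apply commutes_of_dvd p q hpq hg A (N.factorial : ℤ) (by exact_mod_cast N.factorial_ne_zero)
  intro k
  have hcol : ∀ i : Fin 2, ∃ y : Fin 2 → ℤ,
      (N.factorial : ℤ) • A.mulVec ((comp p q ^ k).mulVec (Pi.single i 1))
        = (comp p q ^ k).mulVec y := by
    intro i
    obtain ⟨d, hd0, hdN, y, hy⟩ := hvec k (Pi.single i 1) (by
      intro h; have := congrFun h i; simp at this)
    obtain ⟨m, hm⟩ := Nat.dvd_factorial hd0 hdN
    refine ⟨(m : ℤ) • y, ?_⟩
    rw [Matrix.mulVec_smul, ← hy, smul_smul, hm]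
    congr 1
    push_cast; ring
  choose y hy using hcol
  refine ⟨Matrix.of (fun i j => y j i), ?_⟩
  ext i j
  have h1 := congrFun (hy j) i
  rw [Matrix.mulVec_mulVec] at h1
  simp only [Pi.smul_apply, Matrix.mulVec_single_one, Matrix.col_apply] at h1
  rw [Matrix.smul_apply, h1]
  simp [Matrix.mulVec, dotProduct, Matrix.mul_apply]

/-- **MP_334179_al, Q1.**  For every `(p,q) ∈ 𝒫`, every `2 × 2` integer matrix that is
FA-recognizable with respect to `ψ_{p,q}` commutes with the matrix of multiplication by `x`.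
Consequently the Anosov matrix `(3 7; 2 5)` is FA-recognizable with respect to no `ψ_{p,q}`. -/
theorem result :
    (∀ pq ∈ IndexSet, ∀ A : Matrix (Fin 2) (Fin 2) ℤ, MatrixRecognizable pq.1 pq.2 A →
      A * comp pq.1 pq.2 = comp pq.1 pq.2 * A) ∧
    ∃ A : Matrix.SpecialLinearGroup (Fin 2) ℤ, (A : Matrix (Fin 2) (Fin 2) ℤ) = !![3, 7; 2, 5] ∧
      2 < |(A : Matrix (Fin 2) (Fin 2) ℤ).trace| ∧
      ∀ pq ∈ IndexSet, ¬ MatrixRecognizable pq.1 pq.2 (A : Matrix (Fin 2) (Fin 2) ℤ) := by
  have h1 : ∀ pq ∈ IndexSet, ∀ A : Matrix (Fin 2) (Fin 2) ℤ, MatrixRecognizable pq.1 pq.2 A →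
      A * comp pq.1 pq.2 = comp pq.1 pq.2 * A := by
    rintro ⟨p, q⟩ ⟨ha, hb, -⟩ A hA
    exact commutes p q ha (Int.isCoprime_iff_gcd_eq_one.mpr hb) A hA
  refine ⟨h1, ⟨!![3, 7; 2, 5], by simp [Matrix.det_fin_two_of]⟩, rfl, ?_, ?_⟩
  · simp [Matrix.trace_fin_two_of]
  · intro pq hpq hA
    have h2 := h1 pq hpq _ hA
    have h3 := congrFun (congrFun h2 0) 0
    simp [comp, Matrix.mul_apply, Fin.sum_univ_two] at h3
    omega

end Pool.Agent.Results.MP_334179_al.AnosovNeverRecognizable
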